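import Pool.Agent.P8H69.SV.Sturm
import Pool.Agent.P8H8.SV.Stm

/-!
# Packages SH, TRIG, STURM of project SV
-/

set_option autoImplicit false

namespace Pool.Agent.P8H69.SV

open Pool.Agent.P8H8.SV

theorem t_SH : S_SH := by
  intro n f hn _ hper hA
  exact sh_main n f hn hper hA

theorem t_TRIG : S_TRIG := fun n q => trig_main n q

theorem t_STURM : S_STURM := by
  intro n f Θ hn hf hper hΘ hΘp hΘ0 hΘm hc hs
  exact sturm_main n f Θ hn hf hper hΘ hΘp hΘ0 hΘm hc hs

end Pool.Agent.P8H69.SV
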