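import Mathlib

/-!
# The sign pattern of a periodic function with few sign changes (package SH of project SV)
-/

set_option autoImplicit false

open Set

namespace Pool.Agent.P8H69.SV

/-- `f` has at least `2 n` sign changes on the circle (copy of the definition in project SV) -/
def AltS (n : ℕ) (f : ℝ → ℝ) : Prop :=
  ∃ p : ℕ → ℝ, (∀ i < 2 * n, p i < p (i + 1)) ∧ p (2 * n) = p 0 + 2 * Real.pi ∧
    ∀ i < 2 * n, 0 < (-1) ^ i * f (p i)

/-- there are `u = p 0 < ... < p j ≤ t` with the signs `-, +, -, ...` of `f` -/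
def Al (f : ℝ → ℝ) (u : ℝ) (j : ℕ) (t : ℝ) : Prop :=
  ∃ p : ℕ → ℝ, p 0 = u ∧ (∀ i < j, p i < p (i + 1)) ∧ p j ≤ t ∧ ∀ i ≤ j, (-1) ^ i * f (p i) < 0

theorem Al.mono {f : ℝ → ℝ} {u t t' : ℝ} {j : ℕ} (h : Al f u j t) (ht : t ≤ t') : Al f u j t' := by
  obtain ⟨p, h0, h1, h2, h3⟩ := h
  exact ⟨p, h0, h1, h2.trans ht, h3⟩

theorem Al.pred {f : ℝ → ℝ} {u t : ℝ} {j : ℕ} (h : Al f u (j + 1) t) : Al f u j t := by
  obtain ⟨p, h0, h1, h2, h3⟩ := h
  exact ⟨p, h0, fun i hi => h1 i (by omega), (h1 j (by omega)).le.trans h2,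
    fun i hi => h3 i (by omega)⟩

theorem Al.ext {f : ℝ → ℝ} {u t : ℝ} {j : ℕ} (h : Al f u j t) (ht : (-1) ^ (j + 1) * f t < 0) :
    Al f u (j + 1) t := by
  obtain ⟨p, h0, h1, h2, h3⟩ := h
  have hlt : p j < t := by
    refine lt_of_le_of_ne h2 fun he => ?_
    have h4 := h3 j le_rfl
    rw [he] at h4
    rw [pow_succ] at ht
    linarith
  refine ⟨fun i => if i ≤ j then p i else t, by simp [h0], fun i hi => ?_, by simp, fun i hi => ?_⟩
  · show (if i ≤ j then p i else t) < (if i + 1 ≤ j then p (i + 1) else t)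
    rw [if_pos (by omega : i ≤ j)]
    by_cases hi' : i + 1 ≤ j
    · rw [if_pos hi']; exact h1 i (by omega)
    · rw [if_neg hi']
      have : i = j := by omega
      subst this; exact hlt
  · show (-1) ^ i * f (if i ≤ j then p i else t) < 0
    by_cases hi' : i ≤ j
    · rw [if_pos hi']; exact h3 i hi'
    · rw [if_neg hi']
      have : i = j + 1 := by omega
      subst this; exact ht

theorem altS_of_al {f : ℝ → ℝ} {u : ℝ} {n : ℕ}
    (h : Al f u (2 * n + 2) (u + 2 * Real.pi)) : AltS (n + 1) f := by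
  obtain ⟨p, h0, h1, h2, h3⟩ := h
  have hmono : ∀ i, i ≤ 2 * n + 2 → p 0 ≤ p i := by
    intro i
    induction i with
    | zero => intro _; exact le_rfl
    | succ i ih => intro hi; exact (ih (by omega)).trans (h1 i (by omega)).le
  have h01 : p 0 < p 1 := h1 0 (by omega)
  refine ⟨fun i => if i ≤ 2 * n + 1 then p (i + 1) else p 1 + 2 * Real.pi, fun i hi => ?_, ?_,
    fun i hi => ?_⟩
  · show (if i ≤ 2 * n + 1 then p (i + 1) else p 1 + 2 * Real.pi) <
      (if i + 1 ≤ 2 * n + 1 then p (i + 1 + 1) else p 1 + 2 * Real.pi)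
    rw [if_pos (by omega : i ≤ 2 * n + 1)]
    by_cases hi' : i + 1 ≤ 2 * n + 1
    · rw [if_pos hi']; exact h1 (i + 1) (by omega)
    · rw [if_neg hi']
      have : i = 2 * n + 1 := by omega
      subst this
      have h2' : p (2 * n + 1 + 1) ≤ u + 2 * Real.pi := h2
      linarith
  · show (if 2 * (n + 1) ≤ 2 * n + 1 then p (2 * (n + 1) + 1) else p 1 + 2 * Real.pi) =
      (if 0 ≤ 2 * n + 1 then p (0 + 1) else p 1 + 2 * Real.pi) + 2 * Real.pi
    rw [if_neg (by omega), if_pos (by omega)]
  · show 0 < (-1) ^ i * f (if i ≤ 2 * n + 1 then p (i + 1) else p 1 + 2 * Real.pi)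
    rw [if_pos (by omega : i ≤ 2 * n + 1)]
    have := h3 (i + 1) (by omega)
    rw [pow_succ] at this
    linarith

theorem sh_main (n : ℕ) (f : ℝ → ℝ) (hn : 1 ≤ n) (hper : ∀ t, f (t + 2 * Real.pi) = f t)
    (hA : ¬ AltS (n + 1) f) :
    ∃ q : ℕ → ℝ, (∀ i < 2 * n, q i ≤ q (i + 1)) ∧ q (2 * n) = q 0 + 2 * Real.pi ∧
      ∀ i < 2 * n, ∀ t ∈ Ioo (q i) (q (i + 1)), 0 ≤ (-1) ^ i * f t := by
  have hpi : 0 < 2 * Real.pi := by positivity
  by_cases hu : ∃ u, f u < 0
  · obtain ⟨u, hu⟩ := hu
    have hno : ¬ Al f u (2 * n + 1) (u + 2 * Real.pi) := by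
      intro h
      apply hA
      apply altS_of_al (u := u)
      refine h.ext ?_
      rw [hper, show 2 * n + 1 + 1 = 2 * (n + 1) by ring, pow_mul]
      simpa using hu
    -- the jump points
    set S : ℕ → Set ℝ := fun j => {t | u ≤ t ∧ t ≤ u + 2 * Real.pi ∧ (Al f u j t ∨
      t = u + 2 * Real.pi)} with hS
    set s : ℕ → ℝ := fun j => sInf (S j) with hs
    have hmem : ∀ j, u + 2 * Real.pi ∈ S j := fun j => ⟨by linarith, le_rfl, Or.inr rfl⟩
    have hbdd : ∀ j, BddBelow (S j) := fun j => ⟨u, fun t ht => ht.1⟩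
    have hsu : ∀ j, u ≤ s j := fun j => le_csInf ⟨_, hmem j⟩ fun t ht => ht.1
    have hsl : ∀ j, s j ≤ u + 2 * Real.pi := fun j => csInf_le (hbdd j) (hmem j)
    have hsm : ∀ j, s j ≤ s (j + 1) := fun j => by
      refine csInf_le_csInf (hbdd j) ⟨_, hmem _⟩ fun t ht => ⟨ht.1, ht.2.1, ?_⟩
      rcases ht.2.2 with h | h
      · exact Or.inl h.pred
      · exact Or.inr h
    have hlast : s (2 * n + 1) = u + 2 * Real.pi := by
      refine le_antisymm (hsl _) (le_csInf ⟨_, hmem _⟩ fun t ht => ?_)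
      rcases ht.2.2 with h | h
      · exact absurd (h.mono ht.2.1) hno
      · exact h.ge
    have hsign : ∀ j t, s j < t → t < s (j + 1) → 0 ≤ (-1) ^ (j + 1) * f t := by
      intro j t h1 h2
      obtain ⟨t', ht', h3⟩ := exists_lt_of_csInf_lt ⟨_, hmem j⟩ h1
      by_contra hcon
      push Not at hcon
      have hA1 : Al f u j t := by
        rcases ht'.2.2 with h | h
        · exact h.mono h3.le
        · have := hsl (j + 1); linarith
      have hA2 := hA1.ext hcon
      have : s (j + 1) ≤ t := csInf_le (hbdd _)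
        ⟨(hsu j).trans h1.le, (h2.trans_le (hsl _)).le, Or.inl hA2⟩
      linarith
    have hfirst : ∀ t, u < t → t < s 1 → f t ≤ 0 := by
      intro t h1 h2
      by_contra hcon
      push Not at hcon
      have hA1 : Al f u 0 t := ⟨fun _ => u, rfl, fun i hi => by omega, h1.le, fun i hi => by
        have : i = 0 := by omega
        subst this; simpa using hu⟩
      have hA2 : Al f u 1 t := hA1.ext (by simpa using hcon)
      have : s 1 ≤ t := csInf_le (hbdd _) ⟨h1.le, (h2.trans_le (hsl _)).le, Or.inl hA2⟩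
      linarith
    refine ⟨fun i => if i < 2 * n then s (i + 1) else s 1 + 2 * Real.pi, fun i hi => ?_, ?_,
      fun i hi t ht => ?_⟩
    · show (if i < 2 * n then s (i + 1) else s 1 + 2 * Real.pi) ≤
        (if i + 1 < 2 * n then s (i + 1 + 1) else s 1 + 2 * Real.pi)
      rw [if_pos hi]
      split_ifs with h
      · exact hsm _
      · have := hsl (i + 1); have := hsu 1; linarith
    · show (if 2 * n < 2 * n then s (2 * n + 1) else s 1 + 2 * Real.pi) =
        (if 0 < 2 * n then s (0 + 1) else s 1 + 2 * Real.pi) + 2 * Real.pi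
      rw [if_neg (lt_irrefl _), if_pos (by omega)]
    · obtain ⟨h1, h2⟩ := ht
      simp only [if_pos hi] at h1
      by_cases hi' : i + 1 < 2 * n
      · simp only [if_pos hi'] at h2
        have := hsign (i + 1) t h1 h2
        rw [pow_succ, pow_succ] at this
        linarith
      · simp only [if_neg hi'] at h2
        have hi2 : i = 2 * n - 1 := by omega
        have hodd : ((-1 : ℝ)) ^ i = -1 := Odd.neg_one_pow (by rw [hi2]; exact ⟨n - 1, by omega⟩)
        rw [hodd]
        have : f t ≤ 0 := by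
          rcases lt_trichotomy t (u + 2 * Real.pi) with h | h | h
          · have h3 := hsign (i + 1) t h1 (by
              have : i + 1 + 1 = 2 * n + 1 := by omega
              rw [this, hlast]; exact h)
            rw [pow_succ, pow_succ, hodd] at h3
            linarith
          · rw [h, hper]; exact hu.le
          · have h3 := hfirst (t - 2 * Real.pi) (by linarith) (by linarith)
            have h4 := hper (t - 2 * Real.pi)
            rw [sub_add_cancel] at h4
            rw [h4]; exact h3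
        linarith
  · push Not at hu
    refine ⟨fun i => if i = 0 then 0 else 2 * Real.pi, fun i hi => ?_, ?_, fun i hi t ht => ?_⟩
    · show (if i = 0 then (0 : ℝ) else 2 * Real.pi) ≤ (if i + 1 = 0 then 0 else 2 * Real.pi)
      rw [if_neg (by omega : ¬ i + 1 = 0)]
      split_ifs <;> linarith
    · simp [show ¬ n = 0 by omega]
    · rcases Nat.eq_zero_or_pos i with h | h
      · subst h; simpa using hu t
      · exfalso
        obtain ⟨h1, h2⟩ := ht
        simp only [show ¬ i = 0 by omega, if_false, show ¬ i + 1 = 0 by omega] at h1 h2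
        linarith

end Pool.Agent.P8H69.SV
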