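import Mathlib

/-!
# Products of half-angle sines are trigonometric polynomials (package TRIG of project SV)
-/

set_option autoImplicit false

namespace Pool.Agent.P8H69.SV

/-- trigonometric polynomials of degree `n` -/
def IsT (n : ℕ) (f : ℝ → ℝ) : Prop := ∃ A B : ℕ → ℝ, ∀ θ : ℝ,
  f θ = ∑ k ∈ Finset.range (n + 1), (A k * Real.cos (k * θ) + B k * Real.sin (k * θ))

theorem IsT.add {n : ℕ} {f g : ℝ → ℝ} (hf : IsT n f) (hg : IsT n g) :
    IsT n (fun θ => f θ + g θ) := by
  obtain ⟨A, B, h⟩ := hf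
  obtain ⟨A', B', h'⟩ := hg
  refine ⟨fun k => A k + A' k, fun k => B k + B' k, fun θ => ?_⟩
  show f θ + g θ = _
  rw [h, h', ← Finset.sum_add_distrib]
  exact Finset.sum_congr rfl fun k _ => by ring

theorem IsT.smul {n : ℕ} {f : ℝ → ℝ} (c : ℝ) (hf : IsT n f) : IsT n (fun θ => c * f θ) := by
  obtain ⟨A, B, h⟩ := hf
  refine ⟨fun k => c * A k, fun k => c * B k, fun θ => ?_⟩
  show c * f θ = _
  rw [h, Finset.mul_sum]
  exact Finset.sum_congr rfl fun k _ => by ring

theorem IsT.mono {n m : ℕ} {f : ℝ → ℝ} (hnm : n ≤ m) (hf : IsT n f) : IsT m f := by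
  obtain ⟨A, B, h⟩ := hf
  refine ⟨fun k => if k < n + 1 then A k else 0, fun k => if k < n + 1 then B k else 0,
    fun θ => ?_⟩
  rw [h, ← Finset.sum_subset (Finset.range_mono (Nat.succ_le_succ hnm))]
  · refine Finset.sum_congr rfl fun k hk => ?_
    have hk' : k < n + 1 := Finset.mem_range.1 hk
    simp only [if_pos hk']
  · intro k _ hk
    have hk' : ¬ k < n + 1 := fun h => hk (Finset.mem_range.2 h)
    simp only [if_neg hk']; ring

theorem isT_cos {n k : ℕ} (hk : k ≤ n) : IsT n (fun θ => Real.cos (k * θ)) := by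
  refine ⟨fun j => if j = k then 1 else 0, fun _ => 0, fun θ => ?_⟩
  rw [Finset.sum_eq_single k]
  · simp
  · intro j _ hj; simp [hj]
  · intro h; exact absurd (Finset.mem_range.2 (by omega)) h

theorem isT_sin {n k : ℕ} (hk : k ≤ n) : IsT n (fun θ => Real.sin (k * θ)) := by
  refine ⟨fun _ => 0, fun j => if j = k then 1 else 0, fun θ => ?_⟩
  rw [Finset.sum_eq_single k]
  · simp
  · intro j _ hj; simp [hj]
  · intro h; exact absurd (Finset.mem_range.2 (by omega)) h

theorem isT_zero (n : ℕ) : IsT n (fun _ => 0) := ⟨fun _ => 0, fun _ => 0, fun θ => by simp⟩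

theorem isT_sum {n : ℕ} {ι : Type} (s : Finset ι) (F : ι → ℝ → ℝ) (h : ∀ i ∈ s, IsT n (F i)) :
    IsT n (fun θ => ∑ i ∈ s, F i θ) := by
  classical
  induction s using Finset.induction_on with
  | empty => simpa using isT_zero n
  | insert a s ha ih =>
    simp only [Finset.sum_insert ha]
    exact (h a (Finset.mem_insert_self _ _)).add (ih fun i hi => h i (Finset.mem_insert_of_mem hi))

/-- the products with `cos θ` and `sin θ` of a monomial -/
theorem isT_mul_mono {n k : ℕ} (hk : k ≤ n) :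
    IsT (n + 1) (fun θ => Real.cos (k * θ) * Real.cos θ) ∧
    IsT (n + 1) (fun θ => Real.sin (k * θ) * Real.cos θ) ∧
    IsT (n + 1) (fun θ => Real.cos (k * θ) * Real.sin θ) ∧
    IsT (n + 1) (fun θ => Real.sin (k * θ) * Real.sin θ) := by
  rcases Nat.eq_zero_or_pos k with h0 | h0
  · subst h0
    have h1 := isT_cos (n := n + 1) (k := 1) (by omega)
    have h2 := isT_sin (n := n + 1) (k := 1) (by omega)
    simp only [Nat.cast_one, one_mul] at h1 h2
    refine ⟨by simpa using h1, by simpa using isT_zero _, by simpa using h2,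
      by simpa using isT_zero _⟩
  · obtain ⟨j, rfl⟩ := Nat.exists_eq_succ_of_ne_zero h0.ne'
    have c1 := isT_cos (n := n + 1) (k := j) (by omega)
    have s1 := isT_sin (n := n + 1) (k := j) (by omega)
    have c2 := isT_cos (n := n + 1) (k := j + 2) (by omega)
    have s2 := isT_sin (n := n + 1) (k := j + 2) (by omega)
    have e1 : ∀ θ : ℝ, ((j : ℕ) : ℝ) * θ = ((j.succ : ℕ) : ℝ) * θ - θ := by
      intro θ; push_cast; ring
    have e2 : ∀ θ : ℝ, ((j + 2 : ℕ) : ℝ) * θ = ((j.succ : ℕ) : ℝ) * θ + θ := by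
      intro θ; push_cast; ring
    refine ⟨?_, ?_, ?_, ?_⟩
    · convert (c1.smul (1 / 2)).add (c2.smul (1 / 2)) using 2 with θ
      rw [e1, e2, Real.cos_sub, Real.cos_add]; ring
    · convert (s1.smul (1 / 2)).add (s2.smul (1 / 2)) using 2 with θ
      rw [e1, e2, Real.sin_sub, Real.sin_add]; ring
    · convert (s1.smul (-1 / 2)).add (s2.smul (1 / 2)) using 2 with θ
      rw [e1, e2, Real.sin_sub, Real.sin_add]; ring
    · convert (c1.smul (1 / 2)).add (c2.smul (-1 / 2)) using 2 with θ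
      rw [e1, e2, Real.cos_sub, Real.cos_add]; ring

theorem IsT.mul_cos {n : ℕ} {f : ℝ → ℝ} (hf : IsT n f) : IsT (n + 1) (fun θ => f θ * Real.cos θ) := by
  obtain ⟨A, B, h⟩ := hf
  have : (fun θ => f θ * Real.cos θ) = fun θ => ∑ k ∈ Finset.range (n + 1),
      (A k * (Real.cos (k * θ) * Real.cos θ) + B k * (Real.sin (k * θ) * Real.cos θ)) := by
    funext θ
    rw [h, Finset.sum_mul]
    exact Finset.sum_congr rfl fun k _ => by ring
  rw [this]
  refine isT_sum _ _ fun k hk => ?_
  obtain ⟨h1, h2, _, _⟩ := isT_mul_mono (n := n) (k := k) (by have := Finset.mem_range.1 hk; omega)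
  exact (h1.smul _).add (h2.smul _)

theorem IsT.mul_sin {n : ℕ} {f : ℝ → ℝ} (hf : IsT n f) : IsT (n + 1) (fun θ => f θ * Real.sin θ) := by
  obtain ⟨A, B, h⟩ := hf
  have : (fun θ => f θ * Real.sin θ) = fun θ => ∑ k ∈ Finset.range (n + 1),
      (A k * (Real.cos (k * θ) * Real.sin θ) + B k * (Real.sin (k * θ) * Real.sin θ)) := by
    funext θ
    rw [h, Finset.sum_mul]
    exact Finset.sum_congr rfl fun k _ => by ring
  rw [this]
  refine isT_sum _ _ fun k hk => ?_
  obtain ⟨_, _, h1, h2⟩ := isT_mul_mono (n := n) (k := k) (by have := Finset.mem_range.1 hk; omega)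
  exact (h1.smul _).add (h2.smul _)

theorem half_mul (x a b : ℝ) : Real.sin ((x - a) / 2) * Real.sin ((x - b) / 2) =
    Real.cos ((a - b) / 2) / 2 + (-Real.cos ((a + b) / 2) / 2) * Real.cos x +
      (-Real.sin ((a + b) / 2) / 2) * Real.sin x := by
  have h1 : Real.cos ((a - b) / 2) = Real.cos ((x - b) / 2 - (x - a) / 2) := by congr 1; ring
  have h2 : Real.cos ((a + b) / 2) * Real.cos x + Real.sin ((a + b) / 2) * Real.sin x =
      Real.cos ((x - b) / 2 + (x - a) / 2) := by
    rw [show (x - b) / 2 + (x - a) / 2 = x - (a + b) / 2 by ring, Real.cos_sub]; ring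
  rw [Real.cos_sub] at h1
  rw [Real.cos_add] at h2
  linear_combination (-1 / 2) * h1 - (-1 / 2) * h2

theorem trig_main (n : ℕ) (q : ℕ → ℝ) :
    IsT n (fun θ => ∏ i ∈ Finset.range (2 * n), Real.sin ((θ - q i) / 2)) := by
  induction n with
  | zero =>
    refine ⟨fun _ => 1, fun _ => 0, fun θ => by simp⟩
  | succ n ih =>
    have : (fun θ => ∏ i ∈ Finset.range (2 * (n + 1)), Real.sin ((θ - q i) / 2)) = fun θ =>
        (Real.cos ((q (2 * n) - q (2 * n + 1)) / 2) / 2) *
          (∏ i ∈ Finset.range (2 * n), Real.sin ((θ - q i) / 2)) +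
        ((-Real.cos ((q (2 * n) + q (2 * n + 1)) / 2) / 2) *
          ((∏ i ∈ Finset.range (2 * n), Real.sin ((θ - q i) / 2)) * Real.cos θ) +
        (-Real.sin ((q (2 * n) + q (2 * n + 1)) / 2) / 2) *
          ((∏ i ∈ Finset.range (2 * n), Real.sin ((θ - q i) / 2)) * Real.sin θ)) := by
      funext θ
      rw [show 2 * (n + 1) = 2 * n + 1 + 1 by ring, Finset.prod_range_succ, Finset.prod_range_succ,
        mul_assoc, half_mul]
      ring
    rw [this]
    exact ((ih.mono (Nat.le_succ n)).smul _).add ((ih.mul_cos.smul _).add (ih.mul_sin.smul _))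

end Pool.Agent.P8H69.SV
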