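import Pool.Agent.P8H69.SV.Sh
import Pool.Agent.P8H69.SV.Trig

/-!
# The Sturm-Hurwitz theorem with a change of variable (package STURM of project SV)
-/

set_option autoImplicit false

open Set MeasureTheory intervalIntegral

namespace Pool.Agent.P8H69.SV

theorem sturm_main (n : ℕ) (f Θ : ℝ → ℝ) (hn : 1 ≤ n) (hf : Continuous f)
    (hper : ∀ t, f (t + 2 * Real.pi) = f t) (hΘ : ContDiff ℝ 1 Θ)
    (hΘp : ∀ t, Θ (t + 2 * Real.pi) = Θ t + 2 * Real.pi)
    (hΘ0 : ∀ t, 0 ≤ deriv Θ t) (hΘm : StrictMono Θ)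
    (hc : ∀ k ≤ n, ∫ t in (0 : ℝ)..2 * Real.pi, f t * Real.cos (k * Θ t) * deriv Θ t = 0)
    (hs : ∀ k ≤ n, ∫ t in (0 : ℝ)..2 * Real.pi, f t * Real.sin (k * Θ t) * deriv Θ t = 0) :
    AltS (n + 1) f ∨ ∀ t, f t = 0 := by
  by_cases hA : AltS (n + 1) f
  · exact Or.inl hA
  refine Or.inr ?_
  have hpi : 0 < 2 * Real.pi := by positivity
  obtain ⟨q, hq1, hq2, hq3⟩ := sh_main n f hn hper hA
  obtain ⟨A, B, hT⟩ := trig_main n (fun i => Θ (q i))
  have hdc : Continuous (deriv Θ) := hΘ.continuous_deriv le_rfl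
  have hΘc : Continuous Θ := hΘ.continuous
  set T : ℝ → ℝ := fun θ => ∏ i ∈ Finset.range (2 * n), Real.sin ((θ - Θ (q i)) / 2) with hTdef
  have hTc : Continuous T := by
    rw [hTdef]
    exact continuous_finsetProd _ fun i _ => by fun_prop
  set F : ℝ → ℝ := fun t => f t * T (Θ t) * deriv Θ t with hF
  have hFc : Continuous F := (hf.mul (hTc.comp hΘc)).mul hdc
  -- the integral vanishes
  have hint : ∫ t in (0 : ℝ)..2 * Real.pi, F t = 0 := by
    have h1 : F = fun t => ∑ k ∈ Finset.range (n + 1), (A k * (f t * Real.cos (k * Θ t) * deriv Θ t) +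
        B k * (f t * Real.sin (k * Θ t) * deriv Θ t)) := by
      funext t
      rw [hF]
      show f t * T (Θ t) * deriv Θ t = _
      rw [hT (Θ t), Finset.mul_sum, Finset.sum_mul]
      exact Finset.sum_congr rfl fun k _ => by ring
    rw [h1, intervalIntegral.integral_finsetSum]
    · refine Finset.sum_eq_zero fun k hk => ?_
      have hk' : k ≤ n := by have := Finset.mem_range.1 hk; omega
      rw [intervalIntegral.integral_add, intervalIntegral.integral_const_mul,
        intervalIntegral.integral_const_mul, hc k hk', hs k hk']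
      · ring
      · exact Continuous.intervalIntegrable (by fun_prop) _ _
      · exact Continuous.intervalIntegrable (by fun_prop) _ _
    · intro k _
      exact Continuous.intervalIntegrable (by fun_prop) _ _
  -- periodicity
  have hTp : ∀ θ, T (θ + 2 * Real.pi) = T θ := by
    intro θ
    rw [hTdef]
    show ∏ i ∈ Finset.range (2 * n), Real.sin ((θ + 2 * Real.pi - Θ (q i)) / 2) = _
    have : ∀ i ∈ Finset.range (2 * n), Real.sin ((θ + 2 * Real.pi - Θ (q i)) / 2) =
        (-1) * Real.sin ((θ - Θ (q i)) / 2) := by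
      intro i _
      rw [show (θ + 2 * Real.pi - Θ (q i)) / 2 = (θ - Θ (q i)) / 2 + Real.pi by ring,
        Real.sin_add_pi]; ring
    rw [Finset.prod_congr rfl this, Finset.prod_mul_distrib]
    simp
  have hdp : ∀ t, deriv Θ (t + 2 * Real.pi) = deriv Θ t := by
    intro t
    have h1 : deriv (fun x => Θ (x + 2 * Real.pi)) t = deriv Θ (t + 2 * Real.pi) := by
      rw [deriv_comp_add_const]
    rw [← h1]
    have h2 : (fun x => Θ (x + 2 * Real.pi)) = fun x => Θ x + 2 * Real.pi := funext hΘp
    rw [h2, deriv_add_const]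
  have hFp : Function.Periodic F (2 * Real.pi) := by
    intro t
    show f (t + 2 * Real.pi) * T (Θ (t + 2 * Real.pi)) * deriv Θ (t + 2 * Real.pi) = _
    rw [hper, hΘp, hTp, hdp]
  have hint2 : ∫ t in (q 0)..(q 0 + 2 * Real.pi), F t = 0 := by
    have := hFp.intervalIntegral_add_eq (q 0) 0
    rw [zero_add] at this
    rw [this, hint]
  -- signs
  have hqm : ∀ i j, i ≤ j → j ≤ 2 * n → q i ≤ q j := by
    intro i j hij
    induction j, hij using Nat.le_induction with
    | base => intro _; exact le_rfl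
    | succ j hj ih => intro h; exact (ih (by omega)).trans (hq1 j (by omega))
  have hsin : ∀ i < 2 * n, ∀ t ∈ Ioo (q i) (q (i + 1)), (-1) ^ i * T (Θ t) < 0 := by
    intro i hi t ht
    have h0t : q 0 < t := (hqm 0 i (by omega) (by omega)).trans_lt ht.1
    have ht2 : t < q 0 + 2 * Real.pi := ht.2.trans_le (by
      rw [← hq2]; exact hqm _ _ (by omega) le_rfl)
    have hpos : ∀ j ∈ Finset.range (i + 1), 0 < Real.sin ((Θ t - Θ (q j)) / 2) := by
      intro j hj
      have hj' : j ≤ i := by have := Finset.mem_range.1 hj; omega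
      have h1 : q j < t := (hqm j i hj' (by omega)).trans_lt ht.1
      have h2 : t < q j + 2 * Real.pi := by
        have := hqm 0 j (by omega) (by omega); linarith
      have h3 := hΘm h1
      have h4 := hΘm h2
      rw [hΘp] at h4
      exact Real.sin_pos_of_pos_of_lt_pi (by linarith) (by linarith)
    have hneg : ∀ j ∈ Finset.Ico (i + 1) (2 * n), 0 < -Real.sin ((Θ t - Θ (q j)) / 2) := by
      intro j hj
      obtain ⟨hj1, hj2⟩ := Finset.mem_Ico.1 hj
      have h1 : t < q j := ht.2.trans_le (hqm (i + 1) j hj1 hj2.le)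
      have h2 : q j < t + 2 * Real.pi := by
        have := hqm j (2 * n) hj2.le le_rfl
        rw [hq2] at this; linarith
      have h3 := hΘm h1
      have h4 := hΘm h2
      rw [hΘp] at h4
      rw [← Real.sin_neg]
      exact Real.sin_pos_of_pos_of_lt_pi (by linarith) (by linarith)
    have hsplit : T (Θ t) = (∏ j ∈ Finset.range (i + 1), Real.sin ((Θ t - Θ (q j)) / 2)) *
        ∏ j ∈ Finset.Ico (i + 1) (2 * n), Real.sin ((Θ t - Θ (q j)) / 2) := by
      rw [hTdef, Finset.prod_range_mul_prod_Ico _ (by omega : i + 1 ≤ 2 * n)]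
    have hneg2 : ∏ j ∈ Finset.Ico (i + 1) (2 * n), Real.sin ((Θ t - Θ (q j)) / 2) =
        (-1) ^ (2 * n - (i + 1)) * ∏ j ∈ Finset.Ico (i + 1) (2 * n),
          -Real.sin ((Θ t - Θ (q j)) / 2) := by
      rw [Finset.prod_neg, Nat.card_Ico, ← mul_assoc, ← mul_pow]
      simp
    have hP := Finset.prod_pos hpos
    have hN := Finset.prod_pos hneg
    rw [hsplit, hneg2]
    have hsg : ((-1 : ℝ)) ^ i * (-1) ^ (2 * n - (i + 1)) = -1 := by
      rw [← pow_add]
      exact Odd.neg_one_pow ⟨n - 1, by omega⟩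
    calc (-1 : ℝ) ^ i * ((∏ j ∈ Finset.range (i + 1), Real.sin ((Θ t - Θ (q j)) / 2)) *
        ((-1) ^ (2 * n - (i + 1)) * ∏ j ∈ Finset.Ico (i + 1) (2 * n),
          -Real.sin ((Θ t - Θ (q j)) / 2))) = ((-1 : ℝ) ^ i * (-1) ^ (2 * n - (i + 1))) *
        ((∏ j ∈ Finset.range (i + 1), Real.sin ((Θ t - Θ (q j)) / 2)) *
        ∏ j ∈ Finset.Ico (i + 1) (2 * n), -Real.sin ((Θ t - Θ (q j)) / 2)) := by ring
      _ < 0 := by rw [hsg]; nlinarith [mul_pos hP hN]
  -- every point of the period is some `q i` or in an open interval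
  have hloc : ∀ t ∈ Icc (q 0) (q 0 + 2 * Real.pi), (∃ i ≤ 2 * n, t = q i) ∨
      ∃ i < 2 * n, t ∈ Ioo (q i) (q (i + 1)) := by
    intro t ht
    by_contra hcon
    push Not at hcon
    obtain ⟨hc1, hc2⟩ := hcon
    have h1 : ∀ i ≤ 2 * n, q i ≤ t := by
      intro i
      induction i with
      | zero => intro _; exact ht.1
      | succ i ih =>
        intro hi
        have h2 := ih (by omega)
        have h3 : q i < t := lt_of_le_of_ne h2 fun he => hc1 i (by omega) he.symm
        by_contra h4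
        push Not at h4
        exact hc2 i (by omega) ⟨h3, h4⟩
    have h2 := h1 (2 * n) le_rfl
    rw [hq2] at h2
    exact hc1 (2 * n) le_rfl (by rw [hq2]; exact le_antisymm ht.2 h2)
  have hTq : ∀ i ≤ 2 * n, T (Θ (q i)) = 0 := by
    have h0 : ∀ i < 2 * n, T (Θ (q i)) = 0 := by
      intro i hi
      rw [hTdef]
      exact Finset.prod_eq_zero (Finset.mem_range.2 hi) (by simp)
    intro i hi
    rcases hi.lt_or_eq with h | h
    · exact h0 i h
    · rw [h, hq2, hΘp, hTp]
      exact h0 0 (by omega)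
  have hFneg : ∀ t ∈ Icc (q 0) (q 0 + 2 * Real.pi), F t ≤ 0 := by
    intro t ht
    rcases hloc t ht with ⟨i, hi, rfl⟩ | ⟨i, hi, hti⟩
    · rw [hF]; show f (q i) * T (Θ (q i)) * deriv Θ (q i) ≤ 0
      rw [hTq i hi]; simp
    · have h1 := hq3 i hi t hti
      have h2 := hsin i hi t hti
      have h3 : f t * T (Θ t) = ((-1) ^ i * f t) * ((-1) ^ i * T (Θ t)) := by
        have : ((-1 : ℝ)) ^ i * (-1) ^ i = 1 := by rw [← mul_pow]; simp
        linear_combination (-(f t * T (Θ t))) * this
      show f t * T (Θ t) * deriv Θ t ≤ 0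
      rw [h3]
      exact mul_nonpos_of_nonpos_of_nonneg (mul_nonpos_of_nonneg_of_nonpos h1 h2.le) (hΘ0 t)
  have hF0 : ∀ t ∈ Icc (q 0) (q 0 + 2 * Real.pi), F t = 0 := by
    by_contra hcon
    push Not at hcon
    obtain ⟨t, ht, hne⟩ := hcon
    have h1 : 0 < ∫ t in (q 0)..(q 0 + 2 * Real.pi), -F t := by
      refine intervalIntegral.integral_pos (by linarith) hFc.neg.continuousOn
        (fun x hx => ?_) ⟨t, ht, ?_⟩
      · have := hFneg x (Ioc_subset_Icc_self hx); linarith
      · have := hFneg t ht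
        have := lt_of_le_of_ne this hne
        linarith
    rw [intervalIntegral.integral_neg, hint2] at h1
    simp at h1
  -- conclusion
  have hfin : ∀ y ∈ Ico (q 0) (q 0 + 2 * Real.pi), f y = 0 := by
    intro y hy
    by_contra hne
    have hnear : ∀ᶠ x in nhds y, f x ≠ 0 := hf.continuousAt.eventually_ne hne
    obtain ⟨δ, hδ, hball⟩ := Metric.eventually_nhds_iff.1 hnear
    set b := min (y + δ) (q 0 + 2 * Real.pi) with hb
    have hyb : y < b := lt_min (by linarith) hy.2
    have hI : ∀ x ∈ Ioo y b, f x ≠ 0 ∧ F x = 0 := by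
      intro x hx
      refine ⟨hball ?_, hF0 x ⟨hy.1.trans hx.1.le, (hx.2.trans_le (min_le_right _ _)).le⟩⟩
      have : x < y + δ := hx.2.trans_le (min_le_left _ _)
      rw [Real.dist_eq, abs_lt]; constructor <;> linarith [hx.1]
    have hD : Dense ((Finset.image q (Finset.range (2 * n + 1)) : Finset ℝ) : Set ℝ)ᶜ :=
      Set.Countable.dense_compl ℝ (Finset.countable_toSet _)
    have hz : ∀ x ∈ Ioo y b, deriv Θ x = 0 := by
      have hcl : IsClosed {x | deriv Θ x = 0} := isClosed_eq hdc continuous_const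
      have h1 : Ioo y b ⊆ closure (Ioo y b ∩
          ((Finset.image q (Finset.range (2 * n + 1)) : Finset ℝ) : Set ℝ)ᶜ) :=
        hD.open_subset_closure_inter isOpen_Ioo
      have h2 : (Ioo y b ∩ ((Finset.image q (Finset.range (2 * n + 1)) : Finset ℝ) : Set ℝ)ᶜ) ⊆
          {x | deriv Θ x = 0} := by
        rintro x ⟨hx, hxq⟩
        obtain ⟨h3, h4⟩ := hI x hx
        rcases hloc x ⟨hy.1.trans hx.1.le, (hx.2.trans_le (min_le_right _ _)).le⟩ with
          ⟨i, hi, he⟩ | ⟨i, hi, hti⟩
        · exfalso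
          apply hxq
          simp only [Finset.coe_image, Set.mem_image, Finset.mem_coe, Finset.mem_range]
          exact ⟨i, by omega, he.symm⟩
        · have h5 := hsin i hi x hti
          have h6 : T (Θ x) ≠ 0 := by
            intro h; rw [h] at h5; simp at h5
          have h7 : f x * T (Θ x) * deriv Θ x = 0 := h4
          rcases mul_eq_zero.1 h7 with h8 | h8
          · rcases mul_eq_zero.1 h8 with h9 | h9
            · exact absurd h9 h3
            · exact absurd h9 h6
          · exact h8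
      exact fun x hx => (closure_minimal h2 hcl) (h1 hx)
    -- `Θ` is constant on an interval
    set y1 := y + (b - y) / 3 with hy1
    set y2 := y + 2 * (b - y) / 3 with hy2
    have h12 : y1 < y2 := by rw [hy1, hy2]; linarith
    have hder : ∀ x ∈ Ico y1 y2, HasDerivWithinAt Θ 0 (Ici x) x := by
      intro x hx
      have hxm : x ∈ Ioo y b := ⟨by have := hx.1; rw [hy1] at this; linarith, by
        have := hx.2; rw [hy2] at this; linarith⟩
      have h3 : HasDerivAt Θ (deriv Θ x) x := (hΘ.differentiable (by norm_num) x).hasDerivAt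
      rw [hz x hxm] at h3
      exact h3.hasDerivWithinAt
    have hconst := constant_of_has_deriv_right_zero (f := Θ) (a := y1) (b := y2)
      hΘc.continuousOn hder y2 ⟨h12.le, le_rfl⟩
    have := hΘm h12
    linarith
  intro t
  have hfp : Function.Periodic f (2 * Real.pi) := hper
  obtain ⟨y, hy, he⟩ := hfp.exists_mem_Ico hpi t (q 0)
  rw [he]; exact hfin y hy

end Pool.Agent.P8H69.SV
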